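import Pool.Agent.Lib.MP_b2e238_gt.C.Graph
import Pool.Agent.Lib.MP_b2e238_gt.C.Model
import Pool.Agent.Lib.MP_b2e238_gt.TL.Main
import Pool.Agent.Lib.MP_b2e238_gt.P.Top
import Pool.Agent.Lib.MP_b2e238_gt.Z.Rk1

/-! The induction over all `s`. -/

open scoped ContDiff Topology
open Set Metric

noncomputable section

namespace Pool.Agent.Lib.MP_b2e238_gt

variable {n : ℕ} {γ γ' : ℝ → C3} {k : ℤ}

theorem RK.loop (z : RK n γ k) : Hl (Bri n) γ γ := by
  obtain ⟨_, _, h, -, -⟩ := z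
  exact h.trans h.symm

theorem rk_mu (k : ℤ) : Hl (Inj E3) (fun t => mu (ex (k * t))) fun t => mu (ex (k * t)) :=
  (hl_two k).symm.trans (hl_two k)

theorem RK.hl (z : RK n γ k) (h : Hl (Bri n) γ γ') : RK n γ' k := Gq.hl z h (rk_mu k)

theorem rk_two : RK n γ (k + 2) ↔ RK n γ k := by
  have e := hl_two k
  refine ⟨fun z => Gq.hl z z.loop ?_, fun z => Gq.hl z z.loop ?_⟩
  · simpa using e
  · simpa using e.symm

theorem RK.rev (z : RK n γ 1) : RK n (fun t => γ (-t)) 1 := by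
  have y : RK n (fun t => γ (-t)) (-1) := by
    have := Gq.rev z
    simpa [RK] using this
  simpa using rk_two.2 y

/-- The disc move. -/
theorem move {i : ℕ} (hi : i = 1 ∨ i = 2) (e b : ℤ) : ∃ η, WL i e b η ∧
    ∀ (d d' : JD) (m m' k : ℤ), d.OK → d'.OK → d.k * (2 - i) + d.l = 1 →
      d'.k * (2 - i) + d'.l = 1 → Fill (YO 1) (cl i) (MM d.n) (OO d.n) d.j m m' →
      Fill (YO 1) (cl i) (MM d'.n) (OO d'.n) d'.j (m + 2 * k) m' →
      RK d.n (d.lp i η) (d.tw i) → RK d'.n (d'.lp i η) (d'.tw i) := by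
  obtain ⟨p, τ, g, R, h⟩ := model i e b
  refine ⟨_, h.word, fun d d' m m' k o o' w w' f f' z => ?_⟩
  obtain ⟨r, t⟩ := h.tube
  obtain ⟨j, a, x⟩ := h.graph hi o w f
  obtain ⟨j', a', x'⟩ := h.graph hi o' w' f'
  exact x'.1 (twist k t h.disc a a' (x.2 z))

/-- The statement for the pair `(s, b)`. -/
def AA (s b : ℤ) : Prop := ∀ η, WL 2 1 b η → RK (jS s).n ((jS s).lp 2 η) 1

theorem wl_ex (b : ℤ) : ∃ η, WL 2 1 b η := (move (.inr rfl) 1 b).imp fun _ h => h.1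

theorem aa_shift (s b : ℤ) : AA s b ↔ AA s (b + (6 * s + 1)) := by
  obtain ⟨η, h⟩ := wl_ex b
  obtain ⟨η', h'⟩ := wl_ex (b + (6 * s + 1))
  exact ⟨fun z ζ k => (z η h).hl (lp_shift s h k), fun z ζ k => (z η' h').hl (lp_shift s k h').symm⟩

theorem aa_of {s b : ℤ} {η : ℝ → ℂ} (h : WL 2 1 b η) (z : RK (jS s).n ((jS s).lp 2 η) 1) :
    AA s b := by
  obtain ⟨η', h'⟩ := wl_ex (b + (6 * s + 1))
  exact fun ζ k => z.hl ((lp_shift s h h').trans (lp_shift s k h').symm)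

theorem tw_jS (s : ℤ) : (jS s).tw 2 = 1 := by simp [JD.tw, jS]

theorem aa_move {s b : ℤ} (k : ℤ) (z : AA s b) : AA (s + 2 * k) b := by
  obtain ⟨η, h, mv⟩ := move (.inr rfl) 1 b
  refine aa_of h ?_
  have := mv (jS s) (jS (s + 2 * k)) s 1 k (jS_ok _) (jS_ok _) (by simp [jS]) (by simp [jS])
    (fill_two _) (fill_two _) (by rw [tw_jS]; exact z η h)
  rwa [tw_jS] at this

theorem aa_mul (s b : ℤ) (m : ℤ) : AA s b ↔ AA s (b + m * (6 * s + 1)) := by
  induction m using Int.induction_on with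
  | zero => simp
  | succ m ih => rw [ih, aa_shift, add_mul, one_mul, add_assoc]
  | pred m ih =>
    rw [ih, aa_shift s (b + (-(m : ℤ) - 1) * (6 * s + 1)),
      show b + (-(m : ℤ) - 1) * (6 * s + 1) + (6 * s + 1) = b + -(m : ℤ) * (6 * s + 1) by ring]

theorem aa_zero (b : ℤ) : AA 0 b := by
  intro η h
  obtain ⟨η', h'⟩ := wl_ex (b + (6 * 0 + 1))
  have l := lp_shift 0 h h'
  exact rk_one (l.trans l.symm) 1

theorem aa_base : ∃ b, AA (-1) b := by
  obtain ⟨b, hb⟩ := lp_base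
  obtain ⟨η, h⟩ := wl_ex b
  obtain ⟨η', h', mv⟩ := move (.inl rfl) 0 0
  have z := mv (jS 0) jA 0 2 (-1) (jS_ok _) jA_ok (by simp [jS]) (by simp [jA]) fill_one
    (by simpa using fill_aut) (rk_one (lp_loop (jS_ok 0) h') _)
  have e : jA.tw 1 = 1 := by simp [JD.tw, jA]
  rw [e] at z
  refine ⟨b, aa_of h ?_⟩
  rcases hb η η' h h' with k | k
  · exact RK.hl (n := 5) z k
  · exact RK.hl (n := 5) (RK.rev z) k

theorem aa_all (s b : ℤ) : AA s b := by
  rcases Int.even_or_odd' s with ⟨k, rfl | rfl⟩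
  · simpa using aa_move k (aa_zero b)
  · obtain ⟨c, z⟩ := aa_base
    have z1 := (aa_mul (-1) c (4 * (b - c))).1 z
    have z2 := (aa_mul _ _ (3 * (b - c))).1 (aa_move 1 z1)
    have z3 := aa_move k z2
    convert z3 using 1 <;> ring

theorem all_rk (s : ℤ) {k : ℝ → C3} (c : Continuous k) (p : ∀ t, k (t + 1) = k t)
    (j : ∀ t t', k t = k t' → ∃ n : ℤ, t' = t + n)
    (r : range k = {a | a ∈ Bri (6 * s + 1).natAbs ∧ star a = a}) :
    RK (6 * s + 1).natAbs k 1 := by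
  obtain ⟨b, hb⟩ := lp_real s c p j r
  obtain ⟨η, h⟩ := wl_ex b
  rcases hb η h with l | l
  · exact (aa_all s b η h).hl l
  · have := ((aa_all s b η h).hl l).rev
    simp only [neg_neg] at this
    exact this

end Pool.Agent.Lib.MP_b2e238_gt
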