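import Mathlib

/-! Branched double covers and roll-spun knots, with all manifolds as subsets of vector spaces. -/

set_option autoImplicit false

open scoped ContDiff Topology
open Set Metric

noncomputable section

namespace Pool.Agent.Lib.MP_b2e238_gt

variable {P V W : Type} [NormedAddCommGroup P] [NormedSpace ℝ P] [NormedAddCommGroup V]
  [NormedSpace ℝ V] [NormedAddCommGroup W] [NormedSpace ℝ W]

/-- `φ` is a diffeomorphism from the open set `U` onto an open part of the submanifold `A`. -/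
def Par (A : Set V) (φ : P → V) (U : Set P) : Prop :=
  IsOpen U ∧ ContDiffOn ℝ ∞ φ U ∧ InjOn φ U ∧ MapsTo φ U A ∧
    ∀ u ∈ U, Function.Injective (fderiv ℝ φ u) ∧ ∀ N ∈ 𝓝 u, φ '' N ∈ 𝓝[A] φ u

/-- `π : A → B` is a smooth double cover branched along `F`: in charts modelled on `P × ℂ` it is
`(w, z) ↦ (w, z ^ 2)` at the points over `F` and the identity elsewhere. -/
def Br (P : Type) [NormedAddCommGroup P] [NormedSpace ℝ P] (A : Set V) (B F : Set W) (π : V → W) :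
    Prop :=
  (∀ b ∈ B \ F, (A ∩ π ⁻¹' {b}).ncard = 2) ∧ (∀ b ∈ F, (A ∩ π ⁻¹' {b}).ncard = 1) ∧
    ∀ a ∈ A, ∃ (k : ℕ) (φ : P × ℂ → V) (ψ : P × ℂ → W) (U U' : Set (P × ℂ)),
      (k = 1 ∨ k = 2) ∧ Par A φ U ∧ Par B ψ U' ∧ a ∈ φ '' U ∧ ∀ u ∈ U, (u.1, u.2 ^ k) ∈ U' ∧
        π (φ u) = ψ (u.1, u.2 ^ k) ∧ (π (φ u) ∈ F ↔ k = 2 ∧ u.2 = 0)

/-- The Brieskorn sphere `Σ(2,3,n)`. -/
def Bri (n : ℕ) : Set (ℂ × ℂ × ℂ) :=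
  {a | a.1 ^ 2 + a.2.1 ^ 3 + a.2.2 ^ n = 0 ∧ ‖a.1‖ ^ 2 + ‖a.2.1‖ ^ 2 + ‖a.2.2‖ ^ 2 = 1}

/-- The unit sphere of `ℝ × ℂ × V` (`S³` for `V = ℝ`, `S⁴` for `V = ℂ`). -/
def Sph (V : Type) [NormedAddCommGroup V] : Set ((ℝ × ℂ) × V) :=
  {a | a.1.1 ^ 2 + ‖a.1.2‖ ^ 2 + ‖a.2‖ ^ 2 = 1}

/-- Radial projection to the sphere. -/
def nrm (a : (ℝ × ℂ) × V) : (ℝ × ℂ) × V := (√(a.1.1 ^ 2 + ‖a.1.2‖ ^ 2 + ‖a.2‖ ^ 2))⁻¹ • a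

/-- An embedded solid torus `ℝ / ℤ × {‖z‖ < r}` in `A`. -/
def Tube (A : Set V) (ν : ℝ × ℂ → V) (r : ℝ) : Prop :=
  (∀ t z, ν (t + 1, z) = ν (t, z)) ∧ ∀ s : ℝ, Par A ν (Ioo s (s + 1) ×ˢ ball 0 r)

/-- The pages of the standard open book of `S⁴`: `S³` without the pole `(0, 1)`, at the angle `t`. -/
def page (t : ℝ) (y : (ℝ × ℂ) × ℝ) : (ℝ × ℂ) × ℂ :=
  nrm (y.1, (1 - y.2 : ℝ) * Complex.exp (2 * Real.pi * t * .I))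

/-- `f t` is a smooth family of diffeomorphisms of `S³`, the identity near the pole, with
`f (t + 1) = f t ∘ ρ`: a trivialisation of the mapping torus of `ρ`. -/
def Triv (ρ : (ℝ × ℂ) × ℝ → (ℝ × ℂ) × ℝ) (f : ℝ → (ℝ × ℂ) × ℝ → (ℝ × ℂ) × ℝ) : Prop :=
  ∃ g : ℝ → (ℝ × ℂ) × ℝ → (ℝ × ℂ) × ℝ, ContDiff ℝ ∞ f.uncurry ∧ ContDiff ℝ ∞ g.uncurry ∧
    (∀ᶠ y in 𝓝 (0, 1), ∀ t, f t y = y) ∧ ∀ t, ∀ y ∈ Sph ℝ, f t y ∈ Sph ℝ ∧ g t y ∈ Sph ℝ ∧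
      g t (f t y) = y ∧ f t (g t y) = y ∧ f (t + 1) y = f t (ρ y)

end Pool.Agent.Lib.MP_b2e238_gt
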