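import Pool.Agent.Lib.MP_b2e238_gt.Defs

/-! The roll-spin of the Montesinos knot `K(2,3,n)`; diffeomorphic subsets. -/

set_option autoImplicit false

open scoped ContDiff Topology
open Set

noncomputable section

namespace Pool.Agent.Lib.MP_b2e238_gt

/-- `F ⊆ S⁴` is the roll-spin of the branch set `K` of a double cover `p : Σ(2,3,n) → S³` whose
deck map is complex conjugation. The tube `ν` round `K` lifts to `ν'`, is standard near the pole and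
Seifert framed (by `g`); `ρ` is the twist along `K`, `f` trivialises its mapping torus. -/
def Roll (n : ℕ) (F : Set ((ℝ × ℂ) × ℂ)) : Prop :=
  ∃ (p : ℂ × ℂ × ℂ → (ℝ × ℂ) × ℝ) (ν' : ℝ × ℂ → ℂ × ℂ × ℂ) (ν : ℝ × ℂ → (ℝ × ℂ) × ℝ)
    (g : (ℝ × ℂ) × ℝ → ℂ) (β : ℝ → ℝ) (ρ : (ℝ × ℂ) × ℝ → (ℝ × ℂ) × ℝ)
    (f : ℝ → (ℝ × ℂ) × ℝ → (ℝ × ℂ) × ℝ),
    Br ℝ (Bri n) (Sph ℝ) (range fun t => ν (t, 0)) p ∧ (∀ a ∈ Bri n, p (star a) = p a) ∧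
    Tube (Bri n) ν' 2 ∧ Tube (Sph ℝ) ν 4 ∧ (∀ t z, ‖z‖ < 2 → p (ν' (t, z)) = ν (t, z ^ 2)) ∧
    (∀ᶠ u in 𝓝 0, ν u = nrm (u, 1)) ∧
    ContinuousOn g (Sph ℝ \ range fun t => ν (t, 0)) ∧
    (∀ y ∈ Sph ℝ \ range fun t => ν (t, 0), g y ≠ 0) ∧
    (∀ t z, z ≠ 0 → ‖z‖ < 1 → g (ν (t, z)) = z) ∧
    ContDiff ℝ ∞ β ∧ (∀ r ≤ 1, β r = 0) ∧ (∀ r ≥ 3, β r = 1) ∧
    (∀ t z, ‖z‖ < 4 → ρ (ν (t, z)) = ν (t + β ‖z‖, z)) ∧ (∀ y ∉ ν '' {u | ‖u.2‖ < 4}, ρ y = y) ∧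
    Triv ρ f ∧ F = closure {x | ∃ t r, r ∈ Ioo (0 : ℝ) 1 ∧ x = page t (f t (ν (r, 0)))}

/-- The subsets `A` and `B` are diffeomorphic. -/
def Diffeo {V W : Type} [NormedAddCommGroup V] [NormedSpace ℝ V] [NormedAddCommGroup W]
    [NormedSpace ℝ W] (A : Set V) (B : Set W) : Prop :=
  ∃ (Φ : V → W) (Ψ : W → V), ContDiffOn ℝ ∞ Φ A ∧ ContDiffOn ℝ ∞ Ψ B ∧ MapsTo Φ A B ∧
    MapsTo Ψ B A ∧ (∀ a ∈ A, Ψ (Φ a) = a) ∧ ∀ b ∈ B, Φ (Ψ b) = b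

end Pool.Agent.Lib.MP_b2e238_gt
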